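import Pool.Agent.C75W.Im

/-!
Certificate format (MP_c75db0, complex line): Hermitian forms by nine reals, block matrices,
models on cells. Mathematical layer; the kernel layer is in `Ker.lean`.
-/

set_option autoImplicit false
noncomputable section
namespace Pool.Agent.Helper86.CX

open Complex ComplexConjugate

/-! ### Hermitian forms -/

/-- nine coefficients: `K00 K11 K22 Re K01, Im K01, Re K02, Im K02, Re K12, Im K12` -/
structure Hm (R : Type) where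
  a : R
  b : R
  c : R
  d : R
  e : R
  f : R
  g : R
  h : R
  i : R

/-- the form `Σ conj (v i) K i j (v j)` -/
def ev (K : Hm ℝ) (v : Fin 3 → ℂ) : ℝ :=
  K.a * normSq (v 0) + K.b * normSq (v 1) + K.c * normSq (v 2) +
    2 * (conj (v 0) * ((K.d : ℂ) + (K.e : ℂ) * I) * v 1).re +
    2 * (conj (v 0) * ((K.f : ℂ) + (K.g : ℂ) * I) * v 2).re +
    2 * (conj (v 1) * ((K.h : ℂ) + (K.i : ℂ) * I) * v 2).re

/-- entries with complex off diagonal part -/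
def mkH (a b c : ℝ) (x y w : ℂ) : Hm ℝ := ⟨a, b, c, x.re, x.im, y.re, y.im, w.re, w.im⟩

/-- `K01` -/
def Hm.x (K : Hm ℝ) : ℂ := (K.d : ℂ) + (K.e : ℂ) * I
/-- `K02` -/
def Hm.y (K : Hm ℝ) : ℂ := (K.f : ℂ) + (K.g : ℂ) * I
/-- `K12` -/
def Hm.w (K : Hm ℝ) : ℂ := (K.h : ℂ) + (K.i : ℂ) * I

/-! ### the matrices -/

/-- the real matrix of a run -/
def BR (R S : ℝ) : Matrix (Fin 3) (Fin 3) ℂ :=
  !![1, 2 * (R : ℂ), (R : ℂ) ^ 2 - S; (R : ℂ), (R : ℂ) ^ 2 - S, -2 * (S : ℂ) * R;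
    (R : ℂ) ^ 2 + S, 0, 0]

/-- `[[1,0,e],[0,c2,0],[0,0,c3]]`; `e = 0` for `j` even -/
def CM (e c2 c3 : ℂ) : Matrix (Fin 3) (Fin 3) ℂ := !![1, 0, e; 0, c2, 0; 0, 0, c3]

/-- `C^* K C` -/
def CK (K : Hm ℝ) (e c2 c3 : ℂ) : Hm ℝ :=
  mkH K.a (K.b * normSq c2) (K.a * normSq e + K.c * normSq c3 + 2 * (conj e * K.y * c3).re)
    (K.x * c2) (K.a * e + K.y * c3) (conj K.x * e * conj c2 + K.w * conj c2 * c3)

/-- `B^T P B` -/
def NB (P : Hm ℝ) (R A W T : ℝ) : Hm ℝ :=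
  ⟨P.a + R ^ 2 * P.b + W ^ 2 * P.c + 2 * R * P.d + 2 * W * P.f + 2 * R * W * P.h,
   4 * R ^ 2 * P.a + A ^ 2 * P.b + 4 * R * A * P.d,
   A ^ 2 * P.a + T ^ 2 * P.b - 2 * A * T * P.d,
   2 * R * P.a + R * A * P.b + (A + 2 * R ^ 2) * P.d + 2 * R * W * P.f + W * A * P.h,
   (A - 2 * R ^ 2) * P.e - 2 * R * W * P.g - W * A * P.i,
   A * P.a - R * T * P.b + (R * A - T) * P.d + W * A * P.f - W * T * P.h,
   -(T + R * A) * P.e - W * A * P.g + W * T * P.i,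
   2 * R * A * P.a - A * T * P.b + (A ^ 2 - 2 * R * T) * P.d,
   -(2 * R * T + A ^ 2) * P.e⟩

/-- `(R, A, W, T)`, `A = R² - S`, `W = R² + S`, `T = 2 S R` -/
def BA (R A W T : ℝ) : Matrix (Fin 3) (Fin 3) ℂ :=
  !![1, 2 * (R : ℂ), (A : ℂ); (R : ℂ), (A : ℂ), -(T : ℂ); (W : ℂ), 0, 0]

/-- ROW CKL -/
theorem ev_CK (K : Hm ℝ) (e c2 c3 : ℂ) (v : Fin 3 → ℂ) :
    ev K ((CM e c2 c3).mulVec v) = ev (CK K e c2 c3) v := by
  simp only [ev, CK, CM, mkH, Hm.x, Hm.y, Hm.w, Matrix.mulVec, dotProduct, Fin.sum_univ_three]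
  simp [normSq_apply]
  ring

/-- ROW NBL -/
theorem ev_NB (P : Hm ℝ) (R A W T : ℝ) (v : Fin 3 → ℂ) :
    ev P ((BA R A W T).mulVec v) = ev (NB P R A W T) v := by
  simp only [ev, NB, BA, Matrix.mulVec, dotProduct, Fin.sum_univ_three]
  simp [normSq_apply, pow_two]
  ring

/-! ### positivity -/

/-- the three minors -/
def m22 (N : Hm ℝ) : ℝ := N.a * N.b - (N.d * N.d + N.e * N.e)
def m33 (N : Hm ℝ) : ℝ := N.a * N.c - (N.f * N.f + N.g * N.g)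
def m23r (N : Hm ℝ) : ℝ := N.a * N.h - (N.d * N.f + N.e * N.g)
def m23i (N : Hm ℝ) : ℝ := N.a * N.i - (N.d * N.g - N.e * N.f)

/-- the positivity test -/
def PD (N : Hm ℝ) : Prop :=
  0 < N.a ∧ 0 < m22 N ∧ 0 < m22 N * m33 N - (m23r N * m23r N + m23i N * m23i N)

theorem ev_id1 (N : Hm ℝ) (v : Fin 3 → ℂ) :
    N.a * ev N v = normSq (N.a * v 0 + N.x * v 1 + N.y * v 2) +
      (m22 N * normSq (v 1) + m33 N * normSq (v 2) +
        2 * (conj (v 1) * ((m23r N : ℂ) + (m23i N : ℂ) * I) * v 2).re) := by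
  simp only [ev, Hm.x, Hm.y, m22, m33, m23r, m23i]
  simp [normSq_apply]
  ring

theorem ev_id2 (p q r s : ℝ) (x y : ℂ) :
    p * (p * normSq x + q * normSq y + 2 * (conj x * ((r : ℂ) + (s : ℂ) * I) * y).re) =
      normSq (p * x + ((r : ℂ) + (s : ℂ) * I) * y) + (p * q - (r * r + s * s)) * normSq y := by
  simp [normSq_apply]
  ring

/-- ROW PDL -/
theorem ev_nonneg {N : Hm ℝ} (h : PD N) (v : Fin 3 → ℂ) : 0 ≤ ev N v := by
  obtain ⟨h1, h2, h3⟩ := h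
  have h4 := ev_id1 N v
  have h5 := ev_id2 (m22 N) (m33 N) (m23r N) (m23i N) (v 1) (v 2)
  have h6 : 0 ≤ m22 N * normSq (v 1) + m33 N * normSq (v 2) +
        2 * (conj (v 1) * ((m23r N : ℂ) + (m23i N : ℂ) * I) * v 2).re := by
    refine (mul_nonneg_iff_of_pos_left h2).1 ?_
    rw [h5]
    exact add_nonneg (normSq_nonneg _) (mul_nonneg h3.le (normSq_nonneg _))
  refine (mul_nonneg_iff_of_pos_left h1).1 ?_
  rw [h4]
  exact add_nonneg (normSq_nonneg _) h6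

end Pool.Agent.Helper86.CX
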