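import Pool.Agent.Helper86.CX.Ker

/-!
Pieces of the frontier of an exact class: lists of cells, with the block tests, the static tests,
the slit tests and the chain of the heights.
-/

set_option autoImplicit false
noncomputable section
namespace Pool.Agent.Helper86.CX

open Pool.Agent.Helper86.C75 (Z)

/-- heights (unit `2 ^ (-48)`), lower bound of `Im x - Im u`, control values of `1/z`, tables of
forms, multipliers, slit multipliers -/
structure CellD where
  ya : Nat
  yb : Nat
  m : Nat
  u : C3
  K : K2
  L : Nat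
  S : Nat

/-- the half sum -/
def hs (a b : Nat) : Nat := Nat.div (Nat.add a b) (nat_lit 2)

/-- control values of `x` -/
def xsC (X : Z) (a b : Nat) : List C3 := [⟨⟨X, Z.p a⟩, ⟨X, Z.p (hs a b)⟩, ⟨X, Z.p b⟩⟩]

def evC (a b : Nat) : Bool := Nat.beq (Nat.mul (nat_lit 2) (hs a b)) (Nat.add a b)

/-- all tests of a cell -/
def chkD (C : Cls) (G : Prog) (X : Z) (sl : List Nat) (le : List LE) (c : CellD) : Bool :=
  andB (evC c.ya c.yb) (andB (chkCell (nat_lit 1) C G (xsC X c.ya c.yb) (nat_lit 32) c.m [c.u] [c.K] c.L)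
    (andB (chkSt [c.K] sl) (chkSl [c.K] c.S le)))

/-- a chain of cells from `y` to `e` -/
def chkPc (C : Cls) (G : Prog) (X : Z) (sl : List Nat) (le : List LE) (e : Nat)
    (l : List CellD) : Nat → Bool :=
  List.rec (motive := fun _ => Nat → Bool) (fun y => Nat.beq y e)
    (fun c _ ih y => andB (Nat.beq y c.ya) (andB (Nat.ble c.ya c.yb) (andB (chkD C G X sl le c) (ih c.yb)))) l

end Pool.Agent.Helper86.CX
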