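import Pool.Agent.Helper86.CX.Pc

/-!
Classes with a label `3`: the tests of the vector `(1, 2/5, 1/2)` at the forms of type two.
-/

set_option autoImplicit false
noncomputable section
namespace Pool.Agent.Helper86.CX

open Pool.Agent.Helper86.C75 (Z)

/-- `diag(1, 1/5 + o/10, 1/5 - 2 o/5)` -/
def mkL3 (n : Nat) (o : Mo) : CS :=
  mkE2 n (addM (cstM n (nat_lit 56294995342131) (nat_lit 1)) (mulM n (cstM n (nat_lit 28147497671066) (nat_lit 1)) o))
    (subM (cstM n (nat_lit 56294995342131) (nat_lit 1)) (mulM n (cstM n (nat_lit 112589990684262) (nat_lit 1)) o))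

/-- the six `om`: `Q_n` for `(n, n+1, n+2)`, `P_n` for `(n, n-1, n+1)` -/
def chkOm3 (n : Nat) (C : Cls) (KTs : List K2) (LT : Nat) (G : Prog)
    (m0 m1 m2 m3 m4 m5 : Mo) : Bool :=
  andB (chkPE chkP FE EE n KTs LT (mkE n m0 m3) G.e0) (
  andB (chkPE chkP FE EE n KTs LT (mkE n m1 m4) G.e1) (
  andB (chkPE chkP FE EE n KTs LT (mkE n m2 m5) G.e2) (
  andB (chkPE chkP FE EE n KTs LT (mkE n m3 m0) G.e3) (
  andB (chkPE chkP FE EE n KTs LT (mkE n m4 m1) G.e4) (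
  andB (chkPE chkP FE EE n KTs LT (mkE n m5 m2) G.e5) (
  andB (chkPE chkP FO EO n KTs LT (mkO n m0 m2 C.h2 C.q2 C.e2) G.o0) (
  andB (chkPE chkP FO EO n KTs LT (mkO n m1 m0 C.h0 C.q0 C.e0) G.o1) (
  andB (chkPE chkP FO EO n KTs LT (mkO n m2 m1 C.h1 C.q1 C.e1) G.o2) (
  andB (chkPE chkP FO EO n KTs LT (mkO n m3 m4 C.h0 C.q0 C.e0) G.o3) (
  andB (chkPE chkP FO EO n KTs LT (mkO n m4 m5 C.h1 C.q1 C.e1) G.o4) (
  andB (chkPE chkP FO EO n KTs LT (mkO n m5 m3 C.h2 C.q2 C.e2) G.o5) (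
  andB (chkPE chkT FE EE n KTs LT (mkR n m0) G.r0) (
  andB (chkPE chkT FE EE n KTs LT (mkR n m1) G.r1) (
  andB (chkPE chkT FE EE n KTs LT (mkR n m2) G.r2) (
  andB (chkPE chkT FE EE n KTs LT (mkR n m3) G.r3) (
  andB (chkPE chkT FE EE n KTs LT (mkR n m4) G.r4) (
  andB (chkPE chkT FE EE n KTs LT (mkR n m5) G.r5) (
  andB (chkPE chkL FE EE n KTs LT (mkL3 n m0) G.l0) (
  andB (chkPE chkL FE EE n KTs LT (mkL3 n m1) G.l1) (
  andB (chkPE chkL FE EE n KTs LT (mkL3 n m2) G.l2) (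
  andB (chkPE chkL FE EE n KTs LT (mkL3 n m3) G.l3) (
  andB (chkPE chkL FE EE n KTs LT (mkL3 n m4) G.l4)
  (chkPE chkL FE EE n KTs LT (mkL3 n m5) G.l5)))))))))))))))))))))))

def chkG3 (n : Nat) (C : Cls) (KTs : List K2) (LT : Nat) (G : Prog)
    (g0 g1 g2 g3 g4 g5 : Mo) : Bool :=
  andB (invOK n g0) (andB (invOK n g1) (andB (invOK n g2) (andB (invOK n g3) (andB (invOK n g4)
    (andB (invOK n g5) (chkOm3 n C KTs LT G (invM n g0) (invM n g1) (invM n g2) (invM n g3)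
      (invM n g4) (invM n g5)))))))

def chkZ3 (n : Nat) (C : Cls) (KTs : List K2) (LT : Nat) (G : Prog) (u z : Mo) : Bool :=
  chkG3 n C KTs LT G (gM n C.l0 u) (gM n C.l1 u) (gM n C.l2 u) (gM n C.l0 z) (gM n C.l1 z)
    (gM n C.l2 z)

def chkX3 (n : Nat) (C : Cls) (KTs : List K2) (LT : Nat) (G : Prog) (m : Nat) (x u z : Mo) :
    Bool :=
  andB (mOK m x.v u.v) (chkZ3 n C KTs LT G (uM m x u z) (zM x (uM m x u z) z))

/-- THE TEST OF THE BLOCKS OF A CELL -/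
def chkCell3 (n : Nat) (C : Cls) (G : Prog) (xs : List C3) (rx m : Nat) (us : List C3)
    (KTs : List K2) (LT : Nat) : Bool :=
  chkX3 n C KTs LT G m (mk n xs rx) (mk n us (nat_lit 0)) (mk n (zipL sub3 xs us) (nat_lit 0))

/-- all tests of a cell -/
def chkD3 (C : Cls) (G : Prog) (X : Z) (sl : List Nat) (le : List LE) (c : CellD) : Bool :=
  andB (evC c.ya c.yb) (andB (chkCell3 (nat_lit 1) C G (xsC X c.ya c.yb) (nat_lit 32) c.m [c.u] [c.K] c.L)
    (andB (chkSt [c.K] sl) (chkSl [c.K] c.S le)))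

/-- a chain of cells from `y` to `e` -/
def chkPc3 (C : Cls) (G : Prog) (X : Z) (sl : List Nat) (le : List LE) (e : Nat)
    (l : List CellD) : Nat → Bool :=
  List.rec (motive := fun _ => Nat → Bool) (fun y => Nat.beq y e)
    (fun c _ ih y => andB (Nat.beq y c.ya) (andB (Nat.ble c.ya c.yb) (andB (chkD3 C G X sl le c) (ih c.yb)))) l

end Pool.Agent.Helper86.CX
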