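import Pool.Agent.Helper86.C75.Zs

/-!
Kernel checker for the cells (MP_c75db0, complex line). Signed integers are represented as natural
numbers modulo `2 ^ 2304` (nine slots of 256 bits); the test of positivity works modulo `2 ^ 1152`.
Coefficients have unit `2 ^ (-48)`, forms `2 ^ (-20)`, multipliers `2 ^ (-24)`.

A function on a cell is modelled by control values: at the parameter `t ∈ [0,1]` and for weights
`ω` of the corners, `f` is within `r` of `∑ ω_c ((1-t)² a_c + 2 t (1-t) c_c + t² b_c)`.
-/

set_option autoImplicit false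
noncomputable section
namespace Pool.Agent.Helper86.CX

open Pool.Agent.Helper86.C75 (Z)
open Pool.Agent.Helper86.C75.Z (opp add sub mul)


/-- `2 ^ 2304` -/
def MM : Nat := (nat_lit 3742053650892133432367999773538322459225928823527575869347258443714776254479140165467924450143929014376701328043796892084250680644651644268919891406030558009514559848402392186697349032657288467726728117428485865736692545611669179323917560467904459270003565249200768855069969069462910188335948939853235385655600614050799627402904169955617680686939217306230732743306013312855692685442723231659949822010462888578091073832552856131420378840703853686445535243055462767679945780563431553986820134725467051353840270015201262955847832589866641019681571016376279703475133297517542073557917754709550486937454822846451632280550418910946262563991699255138480187856382366661603621981981643212128456085078016)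
/-- `2 ^ 2304 - 1` -/
def NG : Nat := (nat_lit 3742053650892133432367999773538322459225928823527575869347258443714776254479140165467924450143929014376701328043796892084250680644651644268919891406030558009514559848402392186697349032657288467726728117428485865736692545611669179323917560467904459270003565249200768855069969069462910188335948939853235385655600614050799627402904169955617680686939217306230732743306013312855692685442723231659949822010462888578091073832552856131420378840703853686445535243055462767679945780563431553986820134725467051353840270015201262955847832589866641019681571016376279703475133297517542073557917754709550486937454822846451632280550418910946262563991699255138480187856382366661603621981981643212128456085078015)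
/-- `2 ^ 2303 - 2` -/
def HM : Nat := (nat_lit 1871026825446066716183999886769161229612964411763787934673629221857388127239570082733962225071964507188350664021898446042125340322325822134459945703015279004757279924201196093348674516328644233863364058714242932868346272805834589661958780233952229635001782624600384427534984534731455094167974469926617692827800307025399813701452084977808840343469608653115366371653006656427846342721361615829974911005231444289045536916276428065710189420351926843222767621527731383839972890281715776993410067362733525676920135007600631477923916294933320509840785508188139851737566648758771036778958877354775243468727411423225816140275209455473131281995849627569240093928191183330801810990990821606064228042539006)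
/-- `2 ^ 1152` -/
def M2 : Nat := (nat_lit 61172327492847069472032393719205726809135813743440799050195397570919697796091958321786863938157971792315844506873509046544459008355036150650333616890210625686064472971480622053109783197015954399612052812141827922088117778074833698589048132156300022844899841969874763871624802603515651998113045708569927237462546233168834543264678118409417047146496)
/-- `2 ^ 1152 - 1` -/
def N2 : Nat := (nat_lit 61172327492847069472032393719205726809135813743440799050195397570919697796091958321786863938157971792315844506873509046544459008355036150650333616890210625686064472971480622053109783197015954399612052812141827922088117778074833698589048132156300022844899841969874763871624802603515651998113045708569927237462546233168834543264678118409417047146495)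
/-- `2 ^ 1151 - 2` -/
def H2 : Nat := (nat_lit 30586163746423534736016196859602863404567906871720399525097698785459848898045979160893431969078985896157922253436754523272229504177518075325166808445105312843032236485740311026554891598507977199806026406070913961044058889037416849294524066078150011422449920984937381935812401301757825999056522854284963618731273116584417271632339059204708523573246)
/-- `2 ^ 1152 - 2 ^ 255` -/
def D2 : Nat := (nat_lit 61172327492847069472032393719205726809135813743440799050195397570919697796091958321786863938157971792315844506873509046544459008355036150650333616890210625686064472971480622053109783197015954399612052812141827922088117778074833698589048132156300022844899841969874763871566906558896993900401260216065583283535911240836014261244949326405460482326528)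
/-- `2 ^ 256` -/
def S256 : Nat := (nat_lit 115792089237316195423570985008687907853269984665640564039457584007913129639936)
/-- `Σ 2 ^ (255 + 256 i)` minus the slack `2 ^ 136` in the slots 0, 1, 2 -/
def SC : Nat := (nat_lit 1871026825446066716183999886769161229612964411763787934673629221857388127239586241236997880575614864626694998997878668093460198064341887307173708030584713089751434338833145753991855834341641635817078791323944486323653560896858453107221646736647080365267476951252133001328457872097694522420600377928767186716688278330708865686161029267144657449407487701311690973716443035965661022999314253327687828776410995801788781156965587263609715326599328293187017518987303885722372280682885301503915558342964972324062489340317093023519856683516316034972224313138523777343584530207442594493477215759182878911149640508649624774372335558216381421376194859225630149814751522501256801735042785959652511925141504)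
/-- `2 ^ 2304 + Σ 2 ^ (152 + 256 i)` -/
def KC : Nat := (nat_lit 3742053650892133432367999773538506956715330596056961481675100616431815262747306811689817921545988835663936089505820484466840330119935972548781781153455787579388700459989458359412756504180897705243779680891595831234118102112072386686101408758868531558189745386099861739121183518943047206309607894467985196504750332142004171676305889648974081783069936950527295479225522319659012104417905439719512716996230556772005883462033687395089499206635907360318763860855353184963689730748979424350523013358248071015258262354583033727409953363401585800270274819193378921760447872052382673518111872719167167632074658925803038952983391887594760510398772542699632102527618491386406108868225094911038234810122240)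
/-- `2 ^ 2304 - 2 ^ 31` -/
def C31 : Nat := (nat_lit 3742053650892133432367999773538322459225928823527575869347258443714776254479140165467924450143929014376701328043796892084250680644651644268919891406030558009514559848402392186697349032657288467726728117428485865736692545611669179323917560467904459270003565249200768855069969069462910188335948939853235385655600614050799627402904169955617680686939217306230732743306013312855692685442723231659949822010462888578091073832552856131420378840703853686445535243055462767679945780563431553986820134725467051353840270015201262955847832589866641019681571016376279703475133297517542073557917754709550486937454822846451632280550418910946262563991699255138480187856382366661603621981981643212128453937594368)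


def andB (x y : Bool) : Bool := Bool.rec (motive := fun _ => Bool) false y x

/-- `0 < x` for a number modulo `2 ^ 1152` -/
def pos2 (x : Nat) : Bool := Nat.ble (Nat.mod (Nat.add x N2) M2) H2

/-- `a b - (c d + e f)` modulo `2 ^ 1152` -/
def mn (a b c d e f : Nat) : Nat := Nat.mod (Nat.add (Nat.mul a b) (Nat.mul N2 (Nat.add (Nat.mul c d) (Nat.mul e f)))) M2

def psd2 (a m22 m33 mr mi : Nat) : Bool :=
  andB (pos2 a) (andB (pos2 m22) (pos2 (Nat.add (Nat.mul m22 m33) (Nat.mul N2 (Nat.add (Nat.mul mr mr) (Nat.mul mi mi))))))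

def psd1 (a b c d e f g h i : Nat) : Bool :=
  psd2 a (mn a b d d e e) (mn a c f f g g) (mn a h d f e g)
    (Nat.mod (Nat.add (Nat.add (Nat.mul a i) (Nat.mul e f)) (Nat.mul N2 (Nat.mul d g))) M2)

/-- slot, as a number modulo `2 ^ 1152` -/
def s2 (N k : Nat) : Nat := Nat.add (Nat.mod (Nat.shiftRight N k) S256) D2

/-- positivity test of the nine slots (offset `2 ^ 255`) -/
def psd (N : Nat) : Bool :=
  psd1 (Nat.add (Nat.mod N S256) D2) (s2 N (nat_lit 256)) (s2 N (nat_lit 512)) (s2 N (nat_lit 768)) (s2 N (nat_lit 1024)) (s2 N (nat_lit 1280)) (s2 N (nat_lit 1536))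
    (s2 N (nat_lit 1792)) (s2 N (nat_lit 2048))

/-- nine numbers: entries `00, 11, 22, Re 01, Im 01, Re 02, Im 02, Re 12, Im 12` -/
structure P9 where
  a : Nat
  b : Nat
  c : Nat
  d : Nat
  e : Nat
  f : Nat
  g : Nat
  h : Nat
  i : Nat

/-- packed multipliers of a run: the packed form `B^T E_k B` for the nine unit forms -/
structure VR where
  a : Nat
  b : Nat
  c : Nat
  d : Nat
  e : Nat
  f : Nat
  g : Nat
  h : Nat
  i : Nat

/-- `Σ P_k V_k - slack`, offset `2 ^ 255` in all slots -/
def dotV (P : P9) (V : VR) : Nat :=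
  Nat.add SC (Nat.add (Nat.add (Nat.add (Nat.add (Nat.add (Nat.add (Nat.add (Nat.add (Nat.mul P.a V.a) (Nat.mul P.b V.b)) (Nat.mul P.c V.c)) (Nat.mul P.d V.d)) (Nat.mul P.e V.e)) (Nat.mul P.f V.f)) (Nat.mul P.g V.g)) (Nat.mul P.h V.h)) (Nat.mul P.i V.i))

/-- the block test at an end: `B^T P B - slack - lam K > 0`; `KN` encodes `-K 2 ^ 121` -/
def blk (D lam KN : Nat) : Bool := psd (Nat.mod (Nat.add D (Nat.mul (Nat.mul (nat_lit 2) lam) KN)) MM)
/-- the block test at the middle control -/
def blkc (D l0 l1 KN0 KN1 : Nat) : Bool := psd (Nat.mod (Nat.add D (Nat.add (Nat.mul l0 KN1) (Nat.mul l1 KN0))) MM)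

/-! ### the table of forms: slots of 32 bits (offset `2 ^ 31`), nine slots for each form -/

/-- slot of 32 bits, as it is -/
def u32 (N k : Nat) : Nat := Nat.mod (Nat.shiftRight N k) (nat_lit 4294967296)

/-- the form number `k` of the table -/
def kf (T k : Nat) : Nat := Nat.mod (Nat.shiftRight T (Nat.mul (nat_lit 288) k)) (nat_lit 497323236409786642155382248146820840100456150797347717440463976893159497012533375533056)

/-- encodes `-K 2 ^ 121` -/
def mkKN (K : Nat) : Nat :=
  Nat.sub KC (Nat.mul (nat_lit 2658455991569831745807614120560689152) (Nat.add (Nat.add (Nat.add (Nat.add (Nat.add (Nat.add (Nat.add (Nat.add (Nat.mod K (nat_lit 4294967296)) (Nat.mul (nat_lit 115792089237316195423570985008687907853269984665640564039457584007913129639936) (u32 K (nat_lit 32)))) (Nat.mul (nat_lit 13407807929942597099574024998205846127479365820592393377723561443721764030073546976801874298166903427690031858186486050853753882811946569946433649006084096) (u32 K (nat_lit 64)))) (Nat.mul (nat_lit 1552518092300708935148979488462502555256886017116696611139052038026050952686376886330878408828646477950487730697131073206171580044114814391444287275041181139204454976020849905550265285631598444825262999193716468750892846853816057856)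 (u32 K (nat_lit 96)))) (Nat.mul (nat_lit 179769313486231590772930519078902473361797697894230657273430081157732675805500963132708477322407536021120113879871393357658789768814416622492847430639474124377767893424865485276302219601246094119453082952085005768838150682342462881473913110540827237163350510684586298239947245938479716304835356329624224137216) (u32 K (nat_lit 128)))) (Nat.mul (nat_lit 20815864389328798163850480654728171077230524494533409610638224700807216119346720596024478883464648369684843227908562015582767132496646929816279813211354641525848259018778440691546366699323167100945918841095379622423387354295096957733925002768876520583464697770622321657076833170056511209332449663781837603694136444406281042053396870977465916057756101739472373801429441421111406337458176) (u32 K (nat_lit 160)))) (Nat.mul (nat_lit 2410312426921032588580116606028314112912093247945688951359675039065257391591803200669085024107346049663448766280888004787862416978794958324969612987890774651455213339381625224770782077917681499676845543137387820057597345857904599109461387122099507964997815641342300677629473355281617428411794163967785870370368969109221591943054232011562758450080579587850900993714892283476646631181515063804873375182260506246992837898705971012525843324401232986857004760339316736)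 (u32 K (nat_lit 192)))) (Nat.mul (nat_lit 279095111627852376407822673918065072905887935345660252615989519488029661278604994789701101367875859521849524793382568057369148405837577299984720398976429790087982805274893437406788716103454867635208144157749912668657006085226160261808841484862703257771979713923863820038729637520989894984676774385364934677289947762340313157123529922421738738162392233756507666339799675257002539356619747080176786496732679854783185583233878234270370065954615221443190595445898747930123678952192875629172092437548194134594886873249778512829119416327938768896) (u32 K (nat_lit 224)))) (Nat.mul (nat_lit 32317006071311007300714876688669951960444102669715484032130345427524655138867890893197201411522913463688717960921898019494119559150490921095088152386448283120630877367300996091750197750389652106796057638384067568276792218642619756161838094338476170470581645852036305042887575891541065808607552399123930385521914333389668342420684974786564569494856176035326322058077805659331026192708460314150258592864177116725943603718461857357598351152301645904403697613233287231227125684710820209725157101726931323469678542580656697935045997268352998638215525166389437335543602135433229604645318478604952148193555853611059596230656)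 (u32 K (nat_lit 256)))))

/-- slot of 32 bits as a signed number modulo `2 ^ 2304` -/
def t32 (K k : Nat) : Nat := Nat.add (u32 K k) C31

/-- the nine entries, signed -/
def k9 (K : Nat) : P9 :=
  ⟨Nat.add (Nat.mod K (nat_lit 4294967296)) C31, t32 K (nat_lit 32), t32 K (nat_lit 64), t32 K (nat_lit 96), t32 K (nat_lit 128), t32 K (nat_lit 160), t32 K (nat_lit 192), t32 K (nat_lit 224), t32 K (nat_lit 256)⟩


/-! ### models -/

/-- complex numbers, unit `2 ^ (-48)` -/
structure Cx where
  re : Z
  im : Z

/-- control values -/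
structure C3 where
  a : Cx
  c : Cx
  b : Cx

def ab (x : Z) : Nat := Z.rec (motive := fun _ => Nat) (fun n => n) (fun n => n) x
def rshP (n : Nat) : Z := Z.p (Nat.shiftRight n (nat_lit 48))
def rshM (n : Nat) : Z := Z.m (Nat.shiftRight n (nat_lit 48))
/-- division by `2 ^ 48`, towards zero -/
def rsh (x : Z) : Z := Z.rec (motive := fun _ => Z) rshP rshM x
def rs2P (n : Nat) : Z := Z.p (Nat.shiftRight n (nat_lit 2))
def rs2M (n : Nat) : Z := Z.m (Nat.shiftRight n (nat_lit 2))
/-- division by `4`, towards zero -/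
def rs2 (x : Z) : Z := Z.rec (motive := fun _ => Z) rs2P rs2M x
def toMP (n : Nat) : Nat := n
def toMM (n : Nat) : Nat := Nat.mul NG n
/-- modulo `2 ^ 2304` -/
def toM (x : Z) : Nat := Z.rec (motive := fun _ => Nat) toMP toMM x
def mx (a b : Nat) : Nat := Nat.add a (Nat.sub b a)
/-- at least the modulus of a number with components of absolute values `a`, `b` -/
def nb2 (a b : Nat) : Nat := Nat.add (Nat.div (Nat.add (Nat.add a b) (mx a b)) (nat_lit 2)) (nat_lit 1)
def nb (x : Cx) : Nat := nb2 (ab x.re) (ab x.im)
def cadd (x y : Cx) : Cx := ⟨add x.re y.re, add x.im y.im⟩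
def csub (x y : Cx) : Cx := ⟨sub x.re y.re, sub x.im y.im⟩
def cconj (x : Cx) : Cx := ⟨x.re, opp x.im⟩
def cmul (x y : Cx) : Cx :=
  ⟨rsh (sub (mul x.re y.re) (mul x.im y.im)), rsh (add (mul x.re y.im) (mul x.im y.re))⟩
def csc (n : Nat) (x : Cx) : Cx := ⟨mul (Z.p n) x.re, mul (Z.p n) x.im⟩
def cq4 (x : Cx) : Cx := ⟨rs2 x.re, rs2 x.im⟩

def add3 (x y : C3) : C3 := ⟨cadd x.a y.a, cadd x.c y.c, cadd x.b y.b⟩
def sub3 (x y : C3) : C3 := ⟨csub x.a y.a, csub x.c y.c, csub x.b y.b⟩
def conj3 (x : C3) : C3 := ⟨cconj x.a, cconj x.c, cconj x.b⟩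
def mul3 (x y : C3) : C3 :=
  ⟨cmul x.a y.a, csub (cmul x.c y.c) (cq4 (cmul (csub x.b x.a) (csub y.b y.a))), cmul x.b y.b⟩

/-- a model: control values, radius, bound, deviation between the corners, `|b - a|`,
`|c - (a + b)/2|` -/
structure Mo where
  v : List C3
  r : Nat
  B : Nat
  k : Nat
  d : Nat
  f : Nat

def magL (l : List C3) : Nat :=
  List.rec (motive := fun _ => Nat) (nat_lit 0) (fun x _ ih => mx (mx (nb x.a) (nb x.c)) (mx (nb x.b) ih)) l
def zero3 : C3 := ⟨⟨Z.p (nat_lit 0), Z.p (nat_lit 0)⟩, ⟨Z.p (nat_lit 0), Z.p (nat_lit 0)⟩, ⟨Z.p (nat_lit 0), Z.p (nat_lit 0)⟩⟩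
def sumL (l : List C3) : C3 := List.rec (motive := fun _ => C3) zero3 (fun x _ ih => add3 x ih) l
def dvx (n : Nat) (S x : Cx) : Nat := nb (csub (csc n x) S)
def devL (n : Nat) (S : C3) (l : List C3) : Nat :=
  List.rec (motive := fun _ => Nat) (nat_lit 0)
    (fun x _ ih => mx (mx (dvx n S.a x.a) (dvx n S.c x.c)) (mx (dvx n S.b x.b) ih)) l
/-- `x` if there are several corners -/
def ifk (n x : Nat) : Nat := Bool.rec (motive := fun _ => Nat) x (nat_lit 0) (Nat.beq n (nat_lit 1))
def kL (n : Nat) (l : List C3) : Nat := ifk n (Nat.add (Nat.div (devL n (sumL l) l) n) (nat_lit 1))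
def dL (l : List C3) : Nat :=
  List.rec (motive := fun _ => Nat) (nat_lit 0) (fun x _ ih => mx (nb (csub x.b x.a)) ih) l
def f3 (x : C3) : Nat := nb (csub (cadd x.c x.c) (cadd x.a x.b))
def fL' (l : List C3) : Nat := List.rec (motive := fun _ => Nat) (nat_lit 0) (fun x _ ih => mx (f3 x) ih) l
def fL (l : List C3) : Nat := Nat.add (Nat.div (fL' l) (nat_lit 2)) (nat_lit 1)
def mk (n : Nat) (v : List C3) (r : Nat) : Mo := ⟨v, r, magL v, kL n v, dL v, fL v⟩

def mapL (f : C3 → C3) (l : List C3) : List C3 :=
  List.rec (motive := fun _ => List C3) [] (fun x _ ih => f x :: ih) l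
def zipL (f : C3 → C3 → C3) (l : List C3) : List C3 → List C3 :=
  List.rec (motive := fun _ => List C3 → List C3) (fun _ => [])
    (fun x _ ih l' => List.rec (motive := fun _ => List C3) [] (fun y t _ => f x y :: ih t) l') l
def repL (n : Nat) (c : Cx) : List C3 :=
  Nat.rec (motive := fun _ => List C3) [] (fun _ ih => ⟨c, c, c⟩ :: ih) n

/-- a model whose bounds are computed from the control values; `k` is given -/
def addM' (v : List C3) (r k : Nat) : Mo := ⟨v, r, magL v, k, dL v, fL v⟩
def addM (f g : Mo) : Mo := addM' (zipL add3 f.v g.v) (Nat.add f.r g.r) (Nat.add f.k g.k)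
def subM (f g : Mo) : Mo := addM' (zipL sub3 f.v g.v) (Nat.add f.r g.r) (Nat.add f.k g.k)
def conjM (f : Mo) : Mo := ⟨mapL conj3 f.v, f.r, f.B, f.k, f.d, f.f⟩
/-- error of the product of the interpolations, in units `2 ^ (-96)` -/
def thd (f g : Mo) : Nat :=
  Nat.add (Nat.add (Nat.add (Nat.mul f.k g.k) (Nat.div (Nat.add (Nat.mul f.d g.f) (Nat.mul f.f g.d)) (nat_lit 10))) (Nat.div (Nat.mul f.f g.f) (nat_lit 4))) (nat_lit 2)
def mulM' (n : Nat) (f g : Mo) (v : List C3) : Mo :=
  mk n v (Nat.add (Nat.shiftRight (Nat.add (Nat.add (Nat.add (Nat.mul f.r g.B) (Nat.mul g.r f.B)) (Nat.mul f.r g.r)) (thd f g)) (nat_lit 48)) (nat_lit 5))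
def mulM (n : Nat) (f g : Mo) : Mo := mulM' n f g (zipL mul3 f.v g.v)
def cstM (n : Nat) (c : Nat) (r : Nat) : Mo := mk n (repL n ⟨Z.p c, Z.p (nat_lit 0)⟩) r

def divP (D n : Nat) : Z := Z.p (Nat.div (Nat.mul n (nat_lit 281474976710656)) D)
def divM (D n : Nat) : Z := Z.m (Nat.div (Nat.mul n (nat_lit 281474976710656)) D)
def divZ (x : Z) (D : Nat) : Z := Z.rec (motive := fun _ => Z) (divP D) (divM D) x
/-- `y / x` -/
def cdiv (y x : Cx) : Cx :=
  ⟨divZ (add (mul y.re x.re) (mul y.im x.im)) (Nat.add (Nat.mul (ab x.re) (ab x.re)) (Nat.mul (ab x.im) (ab x.im))),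
    divZ (sub (mul y.im x.re) (mul y.re x.im)) (Nat.add (Nat.mul (ab x.re) (ab x.re)) (Nat.mul (ab x.im) (ab x.im)))⟩
def one1 : Cx := ⟨Z.p (nat_lit 281474976710656), Z.p (nat_lit 0)⟩
def inv3' (x : C3) (a b : Cx) : C3 :=
  ⟨a, cdiv (cadd one1 (cq4 (cmul (csub x.b x.a) (csub b a)))) x.c, b⟩
def inv3 (x : C3) : C3 := inv3' x (cdiv one1 x.a) (cdiv one1 x.b)
def sub1 (x : C3) : C3 := ⟨csub x.a one1, csub x.c one1, csub x.b one1⟩
/-- the residual of `f g = 1` -/
def res1 (f g : List C3) : Nat := Nat.add (magL (mapL sub1 (zipL mul3 f g))) (nat_lit 4)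
def etaM (f g : Mo) : Nat :=
  Nat.add (Nat.add (res1 f.v g.v) (Nat.shiftRight (Nat.add (thd f g) (Nat.mul f.r g.B)) (nat_lit 48))) (nat_lit 1)
/-- control values of `1/f` (radius 0) -/
def inv0 (n : Nat) (f : Mo) : Mo := mk n (mapL inv3 f.v) (nat_lit 0)
def inv1 (f g : Mo) : Mo :=
  ⟨g.v, Nat.add (Nat.div (Nat.mul (etaM f g) g.B) (Nat.sub (nat_lit 281474976710656) (etaM f g))) (nat_lit 1), g.B, g.k, g.d, g.f⟩
def invM (n : Nat) (f : Mo) : Mo := inv1 f (inv0 n f)
def invOK (n : Nat) (f : Mo) : Bool := Nat.ble (etaM f (inv0 n f)) (nat_lit 140737488355328)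

/-! ### the class constants -/

/-- constants of a class: `λ_n`, `k/2`, `k/4`, `k²/(4(2+k))` for `k = c 0, c 1, c 2` -/
structure Cls where
  l0 : Mo
  l1 : Mo
  l2 : Mo
  h0 : Mo
  h1 : Mo
  h2 : Mo
  q0 : Mo
  q1 : Mo
  q2 : Mo
  e0 : Mo
  e1 : Mo
  e2 : Mo

/-- `2 c / (a b)` -/
def lamM (n : Nat) (c a b : Mo) : Mo := mulM n (addM c c) (invM n (mulM n a b))
/-- `4 (2 + k)` -/
def fkM (n : Nat) (k : Mo) : Mo :=
  addM (cstM n (nat_lit 2251799813685248) (nat_lit 0)) (addM (addM k k) (addM k k))
def keM (n : Nat) (k : Mo) : Mo := mulM n (mulM n k k) (invM n (fkM n k))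
def mkCls (n : Nat) (k0 k1 k2 : Mo) : Cls :=
  ⟨lamM n k1 k0 k2, lamM n k2 k1 k0, lamM n k0 k2 k1,
    mulM n (cstM n (nat_lit 140737488355328) (nat_lit 0)) k0, mulM n (cstM n (nat_lit 140737488355328) (nat_lit 0)) k1, mulM n (cstM n (nat_lit 140737488355328) (nat_lit 0)) k2,
    mulM n (cstM n (nat_lit 70368744177664) (nat_lit 0)) k0, mulM n (cstM n (nat_lit 70368744177664) (nat_lit 0)) k1, mulM n (cstM n (nat_lit 70368744177664) (nat_lit 0)) k2,
    keM n k0, keM n k1, keM n k2⟩
def clsOK (n : Nat) (k0 k1 k2 : Mo) : Bool :=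
  andB (invOK n (mulM n k0 k2)) (andB (invOK n (mulM n k1 k0)) (andB (invOK n (mulM n k2 k1))
    (andB (invOK n (fkM n k0)) (andB (invOK n (fkM n k1)) (invOK n (fkM n k2))))))

/-! ### `z` and `1/z` -/

def isM (x : Z) : Bool := Z.rec (motive := fun _ => Bool) (fun _ => false) (fun _ => true) x
def mOK1 (m : Nat) (x u : Cx) : Bool := andB (isM u.im) (Nat.ble m (Nat.add (ab x.im) (ab u.im)))
/-- `m ≤ Im x - Im u`, all `Im u ≤ 0`, all `Im x ≥ 0`, `x` affine in `t` with constant real part -/
def mOK3 (m : Nat) (x u : C3) : Bool :=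
  andB (mOK1 m x.a u.a) (andB (mOK1 m x.c u.c) (mOK1 m x.b u.b))
def mOK (m : Nat) (x u : List C3) : Bool :=
  List.rec (motive := fun _ => List C3 → Bool) (fun _ => true)
    (fun a _ ih l' => List.rec (motive := fun _ => Bool) false
      (fun b t _ => andB (mOK3 m a b) (ih t)) l') x u

/-- `1/z`: radius from the residual; `m ≤ Im x - Im u` -/
def uM (m : Nat) (x u z : Mo) : Mo :=
  ⟨u.v, Nat.add (Nat.div (Nat.mul (Nat.add (Nat.add (res1 z.v u.v) (Nat.shiftRight (Nat.add (thd z u) (Nat.mul u.B x.r)) (nat_lit 48))) (nat_lit 1)) (nat_lit 281474976710656)) m) (nat_lit 1),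
    u.B, u.k, u.d, u.f⟩
def zM (x u z : Mo) : Mo := ⟨z.v, Nat.add u.r x.r, z.B, z.k, z.d, z.f⟩

/-- `2 (1 + λ z)` -/
def gM (n : Nat) (l z : Mo) : Mo := addM (cstM n (nat_lit 562949953421312) (nat_lit 0)) (addM (mulM n l z) (mulM n l z))

/-! ### coefficients -/

/-- coefficients of the congruence by `[[1,0,e],[0,c2,0],[0,0,c3]]`: `w = 1` (`0` for
differences), `n22 = |c2|²`, `n33 = |c3|²`, `nee = |e|²`, `m = conj c2 c3`, `p = conj c2 e`,
`q = conj e c3`; modulo `2 ^ 2304` -/
structure CV where
  w : Nat
  c2r : Nat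
  c2i : Nat
  c3r : Nat
  c3i : Nat
  er : Nat
  ei : Nat
  n22 : Nat
  n33 : Nat
  nee : Nat
  mr : Nat
  mi : Nat
  pr : Nat
  pi : Nat
  qr : Nat
  qi : Nat

/-- the control values of a coefficient set at a corner, and the difference `b - a` -/
structure CV4 where
  a : CV
  c : CV
  b : CV
  d : CV

/-- radius, deviation between corners, `f` of a coefficient -/
structure R3 where
  r : Nat
  k : Nat
  f : Nat

/-- radii of a coefficient set -/
structure CR where
  c2 : R3
  c3 : R3
  e : R3
  n22 : R3
  n33 : R3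
  nee : R3
  m : R3
  p : R3
  q : R3

structure CS where
  cv : List CV4
  cr : CR
  ok : Bool

/-- all the numbers of the model are at most `2 ^ 64` -/
def mok (m : Mo) : Bool :=
  Nat.ble (Nat.add (Nat.add (Nat.add (Nat.add m.r m.B) m.k) m.d) m.f) (nat_lit 18446744073709551616)

def r3 (m : Mo) : R3 := ⟨m.r, m.k, m.f⟩
def z3 : R3 := ⟨(nat_lit 0), (nat_lit 0), (nat_lit 0)⟩

def cvE1 (w : Nat) (x y a b c : Cx) : CV :=
  ⟨w, toM x.re, toM x.im, toM y.re, toM y.im, (nat_lit 0), (nat_lit 0), toM a.re, toM b.re, (nat_lit 0), toM c.re, toM c.im,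
    (nat_lit 0), (nat_lit 0), (nat_lit 0), (nat_lit 0)⟩
def cvE4 (x y a b c : C3) : CV4 :=
  ⟨cvE1 (nat_lit 281474976710656) x.a y.a a.a b.a c.a, cvE1 (nat_lit 281474976710656) x.c y.c a.c b.c c.c, cvE1 (nat_lit 281474976710656) x.b y.b a.b b.b c.b,
    cvE1 (nat_lit 0) (csub x.b x.a) (csub y.b y.a) (csub a.b a.a) (csub b.b b.a) (csub c.b c.a)⟩
/-- even set -/
def cvE (l2 : List C3) : List C3 → List C3 → List C3 → List C3 → List CV4 :=
  List.rec (motive := fun _ => List C3 → List C3 → List C3 → List C3 → List CV4)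
    (fun _ _ _ _ => [])
    (fun x _ ih l3 l22 l33 lm =>
      List.rec (motive := fun _ => List CV4) [] (fun y t3 _ =>
        List.rec (motive := fun _ => List CV4) [] (fun a t22 _ =>
          List.rec (motive := fun _ => List CV4) [] (fun b t33 _ =>
            List.rec (motive := fun _ => List CV4) [] (fun c tm _ =>
              cvE4 x y a b c :: ih t3 t22 t33 tm) lm) l33) l22) l3) l2

def mkE3 (c2 c3 c22 c33 m : Mo) : CS :=
  ⟨cvE c2.v c3.v c22.v c33.v m.v, ⟨r3 c2, r3 c3, z3, r3 c22, r3 c33, z3, r3 m, z3, z3⟩,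
    andB (mok c2) (andB (mok c3) (andB (mok c22) (andB (mok c33) (mok m))))⟩
def mkE2 (n : Nat) (c2 c3 : Mo) : CS :=
  mkE3 c2 c3 (mulM n c2 (conjM c2)) (mulM n c3 (conjM c3)) (mulM n (conjM c2) c3)
/-- even set of the state with `om = c2`, `om` of the source `s` -/
def mkE (n : Nat) (c2 s : Mo) : CS := mkE2 n c2 (mulM n s c2)
/-- `diag(1, om, om (1/2 - om))` -/
def mkR (n : Nat) (o : Mo) : CS := mkE2 n o (mulM n o (subM (cstM n (nat_lit 140737488355328) (nat_lit 0)) o))
/-- `diag(1, 1/16 + om/8, 1/16 - om/8)` -/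
def mkL1 (n : Nat) (a t : Mo) : CS := mkE2 n (addM a t) (subM a t)
def mkL (n : Nat) (o : Mo) : CS :=
  mkL1 n (cstM n (nat_lit 17592186044416) (nat_lit 0)) (mulM n (cstM n (nat_lit 35184372088832) (nat_lit 0)) o)

def cvO1 (w : Nat) (x y e a b d c g h : Cx) : CV :=
  ⟨w, toM x.re, toM x.im, toM y.re, toM y.im, toM e.re, toM e.im, toM a.re, toM b.re, toM d.re,
    toM c.re, toM c.im, toM g.re, toM g.im, toM h.re, toM h.im⟩
def cvO4 (x y e a b d c g h : C3) : CV4 :=
  ⟨cvO1 (nat_lit 281474976710656) x.a y.a e.a a.a b.a d.a c.a g.a h.a, cvO1 (nat_lit 281474976710656) x.c y.c e.c a.c b.c d.c c.c g.c h.c,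
    cvO1 (nat_lit 281474976710656) x.b y.b e.b a.b b.b d.b c.b g.b h.b,
    cvO1 (nat_lit 0) (csub x.b x.a) (csub y.b y.a) (csub e.b e.a) (csub a.b a.a) (csub b.b b.a)
      (csub d.b d.a) (csub c.b c.a) (csub g.b g.a) (csub h.b h.a)⟩
/-- odd set -/
def cvO (l2 : List C3) : List C3 → List C3 → List C3 → List C3 → List C3 → List C3 → List C3 →
    List C3 → List CV4 :=
  List.rec (motive := fun _ => List C3 → List C3 → List C3 → List C3 → List C3 → List C3 →
      List C3 → List C3 → List CV4)
    (fun _ _ _ _ _ _ _ _ => [])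
    (fun x _ ih l3 le l22 l33 lee lm lp lq =>
      List.rec (motive := fun _ => List CV4) [] (fun y t3 _ =>
      List.rec (motive := fun _ => List CV4) [] (fun e te _ =>
        List.rec (motive := fun _ => List CV4) [] (fun a t22 _ =>
          List.rec (motive := fun _ => List CV4) [] (fun b t33 _ =>
          List.rec (motive := fun _ => List CV4) [] (fun d tee _ =>
            List.rec (motive := fun _ => List CV4) [] (fun c tm _ =>
            List.rec (motive := fun _ => List CV4) [] (fun g tp _ =>
            List.rec (motive := fun _ => List CV4) [] (fun h tq _ =>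
              cvO4 x y e a b d c g h :: ih t3 te t22 t33 tee tm tp tq)
                  lq) lp) lm) lee) l33) l22) le) l3) l2

def mkO3 (c2 c3 e c22 c33 ee m p q : Mo) : CS :=
  ⟨cvO c2.v c3.v e.v c22.v c33.v ee.v m.v p.v q.v,
    ⟨r3 c2, r3 c3, r3 e, r3 c22, r3 c33, r3 ee, r3 m, r3 p, r3 q⟩,
    andB (mok c2) (andB (mok c3) (andB (mok e) (andB (mok c22) (andB (mok c33) (andB (mok ee)
      (andB (mok m) (andB (mok p) (mok q))))))))⟩
/-- `m = conj c2 c3`, `p = conj c2 e`, `q = conj e c3` -/
def mkO2 (n : Nat) (c2 c3 e : Mo) : CS :=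
  mkO3 c2 c3 e (mulM n c2 (conjM c2)) (mulM n c3 (conjM c3)) (mulM n e (conjM e))
    (mulM n (conjM c2) c3) (mulM n (conjM c2) e) (mulM n (conjM e) c3)
/-- `t = (k/2) om_s` -/
def mkO1 (n : Nat) (c2 q ke t : Mo) : CS := mkO2 n c2 (mulM n c2 (subM q t)) (subM t ke)
def mkO (n : Nat) (c2 s h q ke : Mo) : CS := mkO1 n c2 q ke (mulM n h s)

/-! ### the forms `P = C^* K C` at the controls -/

def md (x : Nat) : Nat := Nat.mod x MM

/-- even congruence -/
def FE (c : CV) (K : P9) : P9 :=
  ⟨Nat.mul c.w K.a, Nat.mul c.n22 K.b, Nat.mul c.n33 K.c,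
    Nat.add (Nat.mul c.c2r K.d) (Nat.mul NG (Nat.mul c.c2i K.e)), Nat.add (Nat.mul c.c2r K.e) (Nat.mul c.c2i K.d),
    Nat.add (Nat.mul c.c3r K.f) (Nat.mul NG (Nat.mul c.c3i K.g)), Nat.add (Nat.mul c.c3r K.g) (Nat.mul c.c3i K.f),
    Nat.add (Nat.mul c.mr K.h) (Nat.mul NG (Nat.mul c.mi K.i)), Nat.add (Nat.mul c.mr K.i) (Nat.mul c.mi K.h)⟩

/-- odd congruence -/
def FO (c : CV) (K : P9) : P9 :=
  ⟨Nat.mul c.w K.a, Nat.mul c.n22 K.b,
    Nat.add (Nat.add (Nat.mul c.nee K.a) (Nat.mul c.n33 K.c)) (Nat.mul (nat_lit 2) (Nat.add (Nat.mul c.qr K.f) (Nat.mul NG (Nat.mul c.qi K.g)))),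
    Nat.add (Nat.mul c.c2r K.d) (Nat.mul NG (Nat.mul c.c2i K.e)), Nat.add (Nat.mul c.c2r K.e) (Nat.mul c.c2i K.d),
    Nat.add (Nat.add (Nat.mul c.er K.a) (Nat.mul c.c3r K.f)) (Nat.mul NG (Nat.mul c.c3i K.g)),
    Nat.add (Nat.add (Nat.mul c.ei K.a) (Nat.mul c.c3r K.g)) (Nat.mul c.c3i K.f),
    Nat.add (Nat.add (Nat.add (Nat.mul c.pr K.d) (Nat.mul c.pi K.e)) (Nat.mul c.mr K.h)) (Nat.mul NG (Nat.mul c.mi K.i)),
    Nat.add (Nat.add (Nat.add (Nat.mul c.pi K.d) (Nat.mul NG (Nat.mul c.pr K.e))) (Nat.mul c.mr K.i)) (Nat.mul c.mi K.h)⟩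

def padd (x y : P9) : P9 :=
  ⟨Nat.add x.a y.a, Nat.add x.b y.b, Nat.add x.c y.c, Nat.add x.d y.d, Nat.add x.e y.e, Nat.add x.f y.f, Nat.add x.g y.g, Nat.add x.h y.h,
    Nat.add x.i y.i⟩
def psub (x y : P9) : P9 :=
  ⟨Nat.add x.a (Nat.mul NG y.a), Nat.add x.b (Nat.mul NG y.b), Nat.add x.c (Nat.mul NG y.c), Nat.add x.d (Nat.mul NG y.d), Nat.add x.e (Nat.mul NG y.e),
    Nat.add x.f (Nat.mul NG y.f), Nat.add x.g (Nat.mul NG y.g), Nat.add x.h (Nat.mul NG y.h), Nat.add x.i (Nat.mul NG y.i)⟩

/-- the three diagonal errors -/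
structure E3 where
  x : Nat
  y : Nat
  z : Nat

/-- `4 P - E`, canonical -/
def fin4 (E : E3) (P : P9) : P9 :=
  ⟨md (Nat.add (Nat.mul (nat_lit 4) P.a) (Nat.mul NG E.x)), md (Nat.add (Nat.mul (nat_lit 4) P.b) (Nat.mul NG E.y)), md (Nat.add (Nat.mul (nat_lit 4) P.c) (Nat.mul NG E.z)), md (Nat.mul (nat_lit 4) P.d),
    md (Nat.mul (nat_lit 4) P.e), md (Nat.mul (nat_lit 4) P.f), md (Nat.mul (nat_lit 4) P.g), md (Nat.mul (nat_lit 4) P.h), md (Nat.mul (nat_lit 4) P.i)⟩
/-- `2 P - Q - E`, canonical -/
def finc (E : E3) (P Q : P9) : P9 :=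
  ⟨md (Nat.add (Nat.mul (nat_lit 2) P.a) (Nat.mul NG (Nat.add Q.a E.x))), md (Nat.add (Nat.mul (nat_lit 2) P.b) (Nat.mul NG (Nat.add Q.b E.y))),
    md (Nat.add (Nat.mul (nat_lit 2) P.c) (Nat.mul NG (Nat.add Q.c E.z))), md (Nat.add (Nat.mul (nat_lit 2) P.d) (Nat.mul NG Q.d)), md (Nat.add (Nat.mul (nat_lit 2) P.e) (Nat.mul NG Q.e)),
    md (Nat.add (Nat.mul (nat_lit 2) P.f) (Nat.mul NG Q.f)), md (Nat.add (Nat.mul (nat_lit 2) P.g) (Nat.mul NG Q.g)), md (Nat.add (Nat.mul (nat_lit 2) P.h) (Nat.mul NG Q.h)),
    md (Nat.add (Nat.mul (nat_lit 2) P.i) (Nat.mul NG Q.i))⟩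

def rng (x : Nat) : Bool := Nat.ble (md (Nat.add x (nat_lit 75557863725914323419136))) (nat_lit 151115727451828646838272)
def rng9 (P : P9) : Bool :=
  andB (rng P.a) (andB (rng P.b) (andB (rng P.c) (andB (rng P.d) (andB (rng P.e)
    (andB (rng P.f) (andB (rng P.g) (andB (rng P.h) (rng P.i))))))))

/-! ### bounds and deviations of the entries of the forms -/

def absd (a b : Nat) : Nat := Nat.add (Nat.sub a b) (Nat.sub b a)

/-- bound, deviation between corners, difference between the ends -/
structure S3 where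
  B : Nat
  k : Nat
  d : Nat

structure RK where
  a : S3
  b : S3
  c : S3
  x : S3
  y : S3
  w : S3

/-- the two ends of a corner -/
structure K2 where
  s : Nat
  t : Nat

def foldK (f : K2 → Nat) (l : List K2) : Nat :=
  List.rec (motive := fun _ => Nat) (nat_lit 0) (fun x _ ih => mx (f x) ih) l
def sumS (k : Nat) (l : List K2) : Nat :=
  List.rec (motive := fun _ => Nat) (nat_lit 0) (fun x _ ih => Nat.add (u32 x.s k) ih) l
def sumT (k : Nat) (l : List K2) : Nat :=
  List.rec (motive := fun _ => Nat) (nat_lit 0) (fun x _ ih => Nat.add (u32 x.t k) ih) l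
/-- real entry -/
def stR (n k : Nat) (l : List K2) : S3 :=
  ⟨foldK (fun x => mx (absd (u32 x.s k) (nat_lit 2147483648)) (absd (u32 x.t k) (nat_lit 2147483648))) l,
    ifk n (Nat.add (Nat.div (foldK (fun x =>
      mx (absd (Nat.mul n (u32 x.s k)) (sumS k l)) (absd (Nat.mul n (u32 x.t k)) (sumT k l))) l) n) (nat_lit 1)),
    foldK (fun x => absd (u32 x.s k) (u32 x.t k)) l⟩
/-- complex entry -/
def stC (n k k' : Nat) (l : List K2) : S3 :=
  ⟨foldK (fun x => mx (nb2 (absd (u32 x.s k) (nat_lit 2147483648)) (absd (u32 x.s k') (nat_lit 2147483648)))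
      (nb2 (absd (u32 x.t k) (nat_lit 2147483648)) (absd (u32 x.t k') (nat_lit 2147483648)))) l,
    ifk n (Nat.add (Nat.div (foldK (fun x => mx
      (nb2 (absd (Nat.mul n (u32 x.s k)) (sumS k l)) (absd (Nat.mul n (u32 x.s k')) (sumS k' l)))
      (nb2 (absd (Nat.mul n (u32 x.t k)) (sumT k l)) (absd (Nat.mul n (u32 x.t k')) (sumT k' l)))) l) n) (nat_lit 1)),
    foldK (fun x => nb2 (absd (u32 x.s k) (u32 x.t k)) (absd (u32 x.s k') (u32 x.t k'))) l⟩

def mkRK (n : Nat) (l : List K2) : RK :=
  ⟨stR n (nat_lit 0) l, stR n (nat_lit 32) l, stR n (nat_lit 64) l, stC n (nat_lit 96) (nat_lit 128) l, stC n (nat_lit 160) (nat_lit 192) l, stC n (nat_lit 224) (nat_lit 256) l⟩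

/-- radius of a product `coefficient * entry`, unit `2 ^ (-70)` -/
def rr (m : R3) (s : S3) : Nat :=
  Nat.add (Nat.add (Nat.mul (nat_lit 4) (Nat.add (Nat.mul m.r s.B) (Nat.mul m.k s.k))) (Nat.div (Nat.mul (Nat.mul (nat_lit 4) m.f) s.d) (nat_lit 10))) (nat_lit 3)

def EE (c : CR) (q : RK) : E3 :=
  ⟨Nat.add (rr c.c2 q.x) (rr c.c3 q.y), Nat.add (Nat.add (rr c.c2 q.x) (rr c.n22 q.b)) (rr c.m q.w),
    Nat.add (Nat.add (rr c.c3 q.y) (rr c.m q.w)) (rr c.n33 q.c)⟩
def EO2 (c : CR) (q : RK) : Nat := Nat.add (rr c.c3 q.y) (rr c.e q.a)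
def EO3 (c : CR) (q : RK) : Nat := Nat.add (rr c.m q.w) (rr c.p q.x)
def EO (c : CR) (q : RK) : E3 :=
  ⟨Nat.add (rr c.c2 q.x) (EO2 c q), Nat.add (Nat.add (rr c.c2 q.x) (rr c.n22 q.b)) (EO3 c q),
    Nat.add (Nat.add (Nat.add (Nat.add (EO2 c q) (EO3 c q)) (rr c.n33 q.c)) (rr c.nee q.a)) (Nat.mul (nat_lit 2) (rr c.q q.y))⟩

/-! ### the program -/

/-- source form, multiplier -/
structure SE where
  k : Nat
  l : Nat

/-- a run: its matrix and the list of sources -/
structure BE where
  V : VR
  s : List SE

/-- a target form with its runs -/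
structure PE where
  k : Nat
  b : List BE

/-- `0 < x` modulo `2 ^ 2304` -/
def posM (x : Nat) : Bool := Nat.ble (md (Nat.add x NG)) HM
/-- the form is positive at `(1, p/640, q/640)` -/
def stv (p q : Nat) (P : P9) : Bool :=
  posM (Nat.add (Nat.add (Nat.add (Nat.add (Nat.mul (nat_lit 409600) P.a) (Nat.mul (Nat.mul p p) P.b)) (Nat.mul (Nat.mul q q) P.c)) (Nat.mul (nat_lit 1280) (Nat.add (Nat.mul p P.d) (Nat.mul q P.f)))) (Nat.mul (Nat.mul (Nat.mul (nat_lit 2) p) q) P.h))
def tst (P : P9) : Bool := andB (stv (nat_lit 192) (nat_lit 640) P) (andB (stv (nat_lit 197) (nat_lit 640) P) (stv (nat_lit 192) (nat_lit 645) P))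
/-- the form is positive at `(1, 1, 1)` -/
def tsl (P : P9) : Bool := stv (nat_lit 640) (nat_lit 640) P

def chkS (Pa Pc Pb : P9) (V : VR) (KT : K2) (LT : Nat) (s : List SE) : Bool :=
  List.rec (motive := fun _ => Bool) true
    (fun x _ ih =>
      andB (blk (dotV Pa V) (u32 LT (Nat.mul (nat_lit 64) x.l)) (mkKN (kf KT.s x.k)))
      (andB (blk (dotV Pb V) (u32 LT (Nat.add (Nat.mul (nat_lit 64) x.l) (nat_lit 32))) (mkKN (kf KT.t x.k)))
      (andB (blkc (dotV Pc V) (u32 LT (Nat.mul (nat_lit 64) x.l)) (u32 LT (Nat.add (Nat.mul (nat_lit 64) x.l) (nat_lit 32)))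
        (mkKN (kf KT.s x.k)) (mkKN (kf KT.t x.k))) ih))) s
def chkB (Pa Pc Pb : P9) (KT : K2) (LT : Nat) (b : List BE) : Bool :=
  List.rec (motive := fun _ => Bool) true
    (fun x _ ih => andB (chkS Pa Pc Pb x.V KT LT x.s) ih) b
def chkP (KT : K2) (LT : Nat) (b : List BE) (Pa Pc Pb : P9) : Bool :=
  andB (rng9 Pa) (andB (rng9 Pc) (andB (rng9 Pb) (chkB Pa Pc Pb KT LT b)))
def chkT (_ : K2) (_ : Nat) (_ : List BE) (Pa Pc Pb : P9) : Bool :=
  andB (tst Pa) (andB (tst Pc) (tst Pb))
def chkL (_ : K2) (_ : Nat) (_ : List BE) (Pa Pc Pb : P9) : Bool :=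
  andB (tsl Pa) (andB (tsl Pc) (tsl Pb))

/-- the three controls at a corner -/
def chkC (T : K2 → Nat → List BE → P9 → P9 → P9 → Bool) (F : CV → P9 → P9) (E : E3) (LT : Nat)
    (b : List BE) (c : CV4) (KT : K2) (Ks Kt : P9) : Bool :=
  T KT LT b (fin4 E (F c.a Ks)) (finc E (F c.c (padd Ks Kt)) (F c.d (psub Kt Ks)))
    (fin4 E (F c.b Kt))

def chkV (T : K2 → Nat → List BE → P9 → P9 → P9 → Bool) (F : CV → P9 → P9) (E : E3) (k LT : Nat)
    (b : List BE) (cv : List CV4) : List K2 → Bool :=
  List.rec (motive := fun _ => List K2 → Bool) (fun _ => true)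
    (fun c _ ih l => List.rec (motive := fun _ => Bool) false
      (fun KT t _ => andB (chkC T F E LT b c KT (k9 (kf KT.s k)) (k9 (kf KT.t k))) (ih t)) l) cv

def kfs (KTs : List K2) (k : Nat) : List K2 :=
  List.rec (motive := fun _ => List K2) [] (fun T _ ih => ⟨kf T.s k, kf T.t k⟩ :: ih) KTs

def chkPE (T : K2 → Nat → List BE → P9 → P9 → P9 → Bool) (F : CV → P9 → P9) (G : CR → RK → E3)
    (n : Nat) (KTs : List K2) (LT : Nat) (cs : CS) (ps : List PE) : Bool :=
  andB cs.ok (List.rec (motive := fun _ => Bool) true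
    (fun x _ ih => andB (chkV T F (G cs.cr (mkRK n (kfs KTs x.k))) x.k LT x.b cs.cv KTs) ih) ps)

/-- the program of a class: targets of the even and odd sets of the states
`(n, n+1, n+2)` (`0, 1, 2`) and `(n, n-1, n+1)` (`3, 4, 5`); all forms of these states; the forms
of these states after a run of length 2 -/
structure Prog where
  e0 : List PE
  e1 : List PE
  e2 : List PE
  e3 : List PE
  e4 : List PE
  e5 : List PE
  o0 : List PE
  o1 : List PE
  o2 : List PE
  o3 : List PE
  o4 : List PE
  o5 : List PE
  r0 : List PE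
  r1 : List PE
  r2 : List PE
  r3 : List PE
  r4 : List PE
  r5 : List PE
  l0 : List PE
  l1 : List PE
  l2 : List PE
  l3 : List PE
  l4 : List PE
  l5 : List PE

/-- the six `om`: `Q_n` for `(n, n+1, n+2)`, `P_n` for `(n, n-1, n+1)` -/
def chkOm (n : Nat) (C : Cls) (KTs : List K2) (LT : Nat) (G : Prog)
    (m0 m1 m2 m3 m4 m5 : Mo) : Bool :=
  andB (chkPE chkP FE EE n KTs LT (mkE n m0 m3) G.e0) (
  andB (chkPE chkP FE EE n KTs LT (mkE n m1 m4) G.e1) (
  andB (chkPE chkP FE EE n KTs LT (mkE n m2 m5) G.e2) (
  andB (chkPE chkP FE EE n KTs LT (mkE n m3 m0) G.e3) (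
  andB (chkPE chkP FE EE n KTs LT (mkE n m4 m1) G.e4) (
  andB (chkPE chkP FE EE n KTs LT (mkE n m5 m2) G.e5) (
  andB (chkPE chkP FO EO n KTs LT (mkO n m0 m2 C.h2 C.q2 C.e2) G.o0) (
  andB (chkPE chkP FO EO n KTs LT (mkO n m1 m0 C.h0 C.q0 C.e0) G.o1) (
  andB (chkPE chkP FO EO n KTs LT (mkO n m2 m1 C.h1 C.q1 C.e1) G.o2) (
  andB (chkPE chkP FO EO n KTs LT (mkO n m3 m4 C.h0 C.q0 C.e0) G.o3) (
  andB (chkPE chkP FO EO n KTs LT (mkO n m4 m5 C.h1 C.q1 C.e1) G.o4) (
  andB (chkPE chkP FO EO n KTs LT (mkO n m5 m3 C.h2 C.q2 C.e2) G.o5) (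
  andB (chkPE chkT FE EE n KTs LT (mkR n m0) G.r0) (
  andB (chkPE chkT FE EE n KTs LT (mkR n m1) G.r1) (
  andB (chkPE chkT FE EE n KTs LT (mkR n m2) G.r2) (
  andB (chkPE chkT FE EE n KTs LT (mkR n m3) G.r3) (
  andB (chkPE chkT FE EE n KTs LT (mkR n m4) G.r4) (
  andB (chkPE chkT FE EE n KTs LT (mkR n m5) G.r5) (
  andB (chkPE chkL FE EE n KTs LT (mkL n m0) G.l0) (
  andB (chkPE chkL FE EE n KTs LT (mkL n m1) G.l1) (
  andB (chkPE chkL FE EE n KTs LT (mkL n m2) G.l2) (
  andB (chkPE chkL FE EE n KTs LT (mkL n m3) G.l3) (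
  andB (chkPE chkL FE EE n KTs LT (mkL n m4) G.l4)
  (chkPE chkL FE EE n KTs LT (mkL n m5) G.l5)))))))))))))))))))))))

def chkG (n : Nat) (C : Cls) (KTs : List K2) (LT : Nat) (G : Prog)
    (g0 g1 g2 g3 g4 g5 : Mo) : Bool :=
  andB (invOK n g0) (andB (invOK n g1) (andB (invOK n g2) (andB (invOK n g3) (andB (invOK n g4)
    (andB (invOK n g5) (chkOm n C KTs LT G (invM n g0) (invM n g1) (invM n g2) (invM n g3)
      (invM n g4) (invM n g5)))))))

def chkZ (n : Nat) (C : Cls) (KTs : List K2) (LT : Nat) (G : Prog) (u z : Mo) : Bool :=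
  chkG n C KTs LT G (gM n C.l0 u) (gM n C.l1 u) (gM n C.l2 u) (gM n C.l0 z) (gM n C.l1 z)
    (gM n C.l2 z)

def chkX (n : Nat) (C : Cls) (KTs : List K2) (LT : Nat) (G : Prog) (m : Nat) (x u z : Mo) :
    Bool :=
  andB (mOK m x.v u.v) (chkZ n C KTs LT G (uM m x u z) (zM x (uM m x u z) z))

/-- THE TEST OF THE BLOCKS OF A CELL -/
def chkCell (n : Nat) (C : Cls) (G : Prog) (xs : List C3) (rx m : Nat) (us : List C3)
    (KTs : List K2) (LT : Nat) : Bool :=
  chkX n C KTs LT G m (mk n xs rx) (mk n us (nat_lit 0)) (mk n (zipL sub3 xs us) (nat_lit 0))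

/-! ### static tests -/

/-- slot of 32 bits modulo `2 ^ 1152` -/
def v32 (K k : Nat) : Nat := Nat.add (u32 K k) (nat_lit 61172327492847069472032393719205726809135813743440799050195397570919697796091958321786863938157971792315844506873509046544459008355036150650333616890210625686064472971480622053109783197015954399612052812141827922088117778074833698589048132156300022844899841969874763871624802603515651998113045708569927237462546233168834543264678118409414899662848)

/-- `[K11, K12; K22] ≤ -2 ^ (-10)` -/
def st1' (b c h i : Nat) : Bool :=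
  andB (pos2 (Nat.mul N2 b)) (pos2 (Nat.add (Nat.mul b c) (Nat.mul N2 (Nat.add (Nat.mul h h) (Nat.mul i i)))))
def st1 (K : Nat) : Bool :=
  st1' (Nat.add (v32 K (nat_lit 32)) (nat_lit 1024)) (Nat.add (v32 K (nat_lit 64)) (nat_lit 1024)) (v32 K (nat_lit 224)) (v32 K (nat_lit 256))

/-- all forms of a table are negative on `v 0 = 0` -/
def stT (T : Nat) (l : List Nat) : Bool :=
  List.rec (motive := fun _ => Bool) true (fun k _ ih => andB (st1 (kf T k)) ih) l
def chkSt (KTs : List K2) (l : List Nat) : Bool :=
  List.rec (motive := fun _ => Bool) true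
    (fun T _ ih => andB (stT T.s l) (andB (stT T.t l) ih)) KTs

/-! ### slit tests -/

/-- form number `k`, multiplier number `l`, `t = (1 - S)/2` modulo `2 ^ 1152` -/
structure LE where
  k : Nat
  l : Nat
  t : Nat

/-- `Re (s conj v0 (v0 + 2 v1 + 2 t v2)) - K > 0` -/
def sl2 (sr si t K : Nat) : Bool :=
  psd1 (Nat.add (Nat.mul (nat_lit 281474976710656) (Nat.add sr (Nat.mul N2 (v32 K (nat_lit 0))))) (Nat.mul N2 (nat_lit 1073741824))) (Nat.mul N2 (Nat.add (Nat.mul (nat_lit 281474976710656) (v32 K (nat_lit 32))) (nat_lit 1073741824)))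
    (Nat.mul N2 (Nat.add (Nat.mul (nat_lit 281474976710656) (v32 K (nat_lit 64))) (nat_lit 1073741824))) (Nat.mul (nat_lit 281474976710656) (Nat.add sr (Nat.mul N2 (v32 K (nat_lit 96)))))
    (Nat.mul (nat_lit 281474976710656) (Nat.add si (Nat.mul N2 (v32 K (nat_lit 128))))) (Nat.add (Nat.mul sr t) (Nat.mul N2 (Nat.mul (nat_lit 281474976710656) (v32 K (nat_lit 160)))))
    (Nat.add (Nat.mul si t) (Nat.mul N2 (Nat.mul (nat_lit 281474976710656) (v32 K (nat_lit 192))))) (Nat.mul N2 (Nat.mul (nat_lit 281474976710656) (v32 K (nat_lit 224)))) (Nat.mul N2 (Nat.mul (nat_lit 281474976710656) (v32 K (nat_lit 256))))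
/-- `ST`: slots of 32 bits, `Re s`, `Im s` at the start, `Re s`, `Im s` at the end -/
def slT (T : K2) (ST : Nat) (l : List LE) : Bool :=
  List.rec (motive := fun _ => Bool) true
    (fun x _ ih => andB (sl2 (v32 ST (Nat.mul (nat_lit 128) x.l)) (v32 ST (Nat.add (Nat.mul (nat_lit 128) x.l) (nat_lit 32))) x.t (kf T.s x.k))
      (andB (sl2 (v32 ST (Nat.add (Nat.mul (nat_lit 128) x.l) (nat_lit 64))) (v32 ST (Nat.add (Nat.mul (nat_lit 128) x.l) (nat_lit 96))) x.t (kf T.t x.k)) ih)) l
def chkSl (KTs : List K2) (ST : Nat) (l : List LE) : Bool :=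
  List.rec (motive := fun _ => Bool) true (fun T _ ih => andB (slT T ST l) ih) KTs

end Pool.Agent.Helper86.CX
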